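import Pool.Agent.helper69.AD.GS4

open scoped MatrixGroups LinearAlgebra.Projectivization
open Matrix UpperHalfPlane

namespace AdSBend

noncomputable section

theorem CLE_smul_vec (g : SL(2, ℝ)) (v : Fin 2 → ℝ) (i : Fin 2) :
    (g • v) i = g.1 i 0 * v 0 + g.1 i 1 * v 1 := by
  have : g • v = g.1 *ᵥ v := rfl
  rw [this, Matrix.mulVec, dotProduct, Fin.sum_univ_two]

theorem CLE_det (g : SL(2, ℝ)) : g.1 0 0 * g.1 1 1 - g.1 0 1 * g.1 1 0 = 1 := by
  have := g.2
  rwa [Matrix.det_fin_two] at this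

theorem CLE_inf (g : SL(2, ℝ)) (h : ![g.1 0 0, g.1 1 0] ≠ 0) :
    g • bInf = Projectivization.mk ℝ ![g.1 0 0, g.1 1 0] h := by
  unfold bInf
  rw [Projectivization.smul_mk]
  congr 1
  funext i
  rw [CLE_smul_vec]
  fin_cases i <;> simp

theorem CLE_zero (g : SL(2, ℝ)) (h : ![g.1 0 1, g.1 1 1] ≠ 0) :
    g • bZero = Projectivization.mk ℝ ![g.1 0 1, g.1 1 1] h := by
  unfold bZero
  rw [Projectivization.smul_mk]
  congr 1
  funext i
  rw [CLE_smul_vec]
  fin_cases i <;> simp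

theorem CLE_linked (h1 : BD1_stmt) (g : SL(2, ℝ))
    (hl : Linked bInf bZero (g • bInf) (g • bZero)) :
    g.1 0 0 * g.1 1 0 * (g.1 0 1 * g.1 1 1) < 0 := by
  have hd := CLE_det g
  have hn1 : ![g.1 0 0, g.1 1 0] ≠ 0 := by
    intro h
    have e0 : g.1 0 0 = 0 := by simpa using congrFun h 0
    have e1 : g.1 1 0 = 0 := by simpa using congrFun h 1
    rw [e0, e1] at hd
    norm_num at hd
  have hn2 : ![g.1 0 1, g.1 1 1] ≠ 0 := by
    intro h
    have e0 : g.1 0 1 = 0 := by simpa using congrFun h 0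
    have e1 : g.1 1 1 = 0 := by simpa using congrFun h 1
    rw [e0, e1] at hd
    norm_num at hd
  rw [CLE_inf g hn1, CLE_zero g hn2] at hl
  unfold Linked bInf bZero at hl
  rw [h1, h1, h1, h1] at hl
  unfold dt at hl
  simp only [Matrix.cons_val_zero, Matrix.cons_val_one] at hl
  rcases hl with ⟨ha, hb⟩ | ⟨ha, hb⟩
  · have ha' : g.1 0 0 * g.1 1 0 < 0 := by nlinarith
    have hb' : 0 < g.1 0 1 * g.1 1 1 := by nlinarith
    nlinarith
  · have ha' : g.1 0 1 * g.1 1 1 < 0 := by nlinarith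
    have hb' : 0 < g.1 0 0 * g.1 1 0 := by nlinarith
    nlinarith

theorem CLE_tr1 (h : SL(2, ℝ)) (t : ℝ) :
    trc (Dm t * h⁻¹) = Real.exp (t / 2) * h.1 1 1 + Real.exp (-(t / 2)) * h.1 0 0 := by
  rw [Matrix.SpecialLinearGroup.SL2_inv_expl]
  simp [trc, Dm, Matrix.mul_apply, Fin.sum_univ_two]

theorem CLE_tr2 (h : SL(2, ℝ)) (t u : ℝ) :
    trc (h * Dm t * Dm u) = h.1 0 0 * Real.exp (t / 2) * Real.exp (u / 2) +
      h.1 1 1 * Real.exp (-(t / 2)) * Real.exp (-(u / 2)) := by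
  simp [trc, Dm, Matrix.mul_apply, Fin.sum_univ_two]

theorem CLE_tr3 (h : SL(2, ℝ)) (t u : ℝ) :
    trc (h * Dm t * (h * Dm t) * Dm u) =
      (h.1 0 0 ^ 2 * Real.exp (t / 2) ^ 2 + h.1 0 1 * h.1 1 0) * Real.exp (u / 2) +
      (h.1 0 1 * h.1 1 0 + h.1 1 1 ^ 2 * Real.exp (-(t / 2)) ^ 2) * Real.exp (-(u / 2)) := by
  have he : Real.exp (t / 2) * Real.exp (-(t / 2)) = 1 := by
    rw [← Real.exp_add]; simp
  simp only [trc, Dm, Matrix.SpecialLinearGroup.coe_mul, Matrix.mul_apply, Fin.sum_univ_two,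
    Matrix.of_apply, Matrix.cons_val', Matrix.cons_val_zero, Matrix.cons_val_one,
    Matrix.cons_val_fin_one, mul_zero, add_zero, zero_add]
  linear_combination (h.1 0 1 * h.1 1 0 * Real.exp (u / 2) +
    h.1 0 1 * h.1 1 0 * Real.exp (-(u / 2))) * he

/-- the core computation -/
theorem CLE_core (h : SL(2, ℝ)) (l : ℝ) (hl : 0 < l)
    (hh : h.1 0 0 * h.1 1 0 * (h.1 0 1 * h.1 1 1) < 0) :
    ∃ n : ℤ, |trc (Dm (n * l) * h⁻¹)| < 2 * Real.cosh (l / 2) ∧
      |trc (h * Dm (-(n * l)) * Dm l)| < 2 * Real.cosh (l / 2) ∧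
      |trc (h * Dm (-(n * l)) * (h * Dm (-(n * l))) * Dm l)| < 2 * Real.cosh (l / 2) := by
  have hd := CLE_det h
  set a := h.1 0 0 with ha
  set b := h.1 0 1 with hb
  set c := h.1 1 0 with hc
  set d := h.1 1 1 with hdd
  have had : 0 < a * d := by
    by_contra hcon
    push Not at hcon
    have hbc : b * c < 0 := by linarith
    nlinarith [mul_nonneg_of_nonpos_of_nonpos hcon hbc.le]
  have hbc : b * c < 0 := by
    by_contra hcon
    push Not at hcon
    nlinarith [mul_nonneg had.le hcon]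
  have had1 : a * d < 1 := by linarith
  -- parameters
  obtain ⟨σ, C, s₀, hσ, hC0, hC1, hCC, hav, hdv⟩ : ∃ σ C s₀ : ℝ, |σ| = 1 ∧ 0 < C ∧ C < 1 ∧
      C ^ 2 = a * d ∧ a = σ * C * Real.exp (-(s₀ / 2)) ∧ d = σ * C * Real.exp (s₀ / 2) := by
    have hCpos : 0 < Real.sqrt (a * d) := Real.sqrt_pos.mpr had
    have hC2 : Real.sqrt (a * d) ^ 2 = a * d := Real.sq_sqrt had.le
    have hC1 : Real.sqrt (a * d) < 1 := by
      rw [Real.sqrt_lt' one_pos]; simpa using had1
    rcases lt_or_ge 0 a with hpa | hna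
    · have hpd : 0 < d := by
        by_contra hcon; push Not at hcon; nlinarith
      refine ⟨1, Real.sqrt (a * d), 2 * Real.log (d / Real.sqrt (a * d)), by simp, hCpos, hC1, hC2,
        ?_, ?_⟩
      · have : Real.exp (-(2 * Real.log (d / Real.sqrt (a * d)) / 2)) =
            (d / Real.sqrt (a * d))⁻¹ := by
          rw [mul_div_cancel_left₀ _ (two_ne_zero), Real.exp_neg, Real.exp_log (by positivity)]
        rw [this]
        field_simp
        nlinarith
      · have : Real.exp (2 * Real.log (d / Real.sqrt (a * d)) / 2) =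
            (d / Real.sqrt (a * d)) := by
          rw [mul_div_cancel_left₀ _ (two_ne_zero), Real.exp_log (by positivity)]
        rw [this]
        field_simp
    · have hna' : a < 0 := lt_of_le_of_ne hna (by rintro h0; rw [h0] at had; simp at had)
      have hnd : d < 0 := by
        by_contra hcon; push Not at hcon; nlinarith
      have hnd' : 0 < -d := by linarith
      refine ⟨-1, Real.sqrt (a * d), 2 * Real.log ((-d) / Real.sqrt (a * d)), by simp, hCpos, hC1,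
        hC2, ?_, ?_⟩
      · have : Real.exp (-(2 * Real.log ((-d) / Real.sqrt (a * d)) / 2)) =
            ((-d) / Real.sqrt (a * d))⁻¹ := by
          rw [mul_div_cancel_left₀ _ (two_ne_zero), Real.exp_neg, Real.exp_log (by positivity)]
        rw [this, inv_div]
        have hdne : d ≠ 0 := hnd.ne
        have e : -1 * Real.sqrt (a * d) * (Real.sqrt (a * d) / -d) =
            Real.sqrt (a * d) ^ 2 / d := by
          rw [div_neg]; ring
        rw [e, hC2, mul_div_cancel_right₀ _ hdne]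
      · have : Real.exp (2 * Real.log ((-d) / Real.sqrt (a * d)) / 2) =
            ((-d) / Real.sqrt (a * d)) := by
          rw [mul_div_cancel_left₀ _ (two_ne_zero), Real.exp_log (by positivity)]
        rw [this, mul_assoc, mul_div_cancel₀ _ hCpos.ne']
        ring
  have hcosh : ∀ x : ℝ, Real.exp x + Real.exp (-x) = 2 * Real.cosh x := by
    intro x; rw [Real.cosh_eq]; ring
  set s := s₀ - ⌊s₀ / l⌋ * l with hs
  have hs0 : 0 ≤ s := by
    have := Int.floor_le (s₀ / l)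
    rw [le_div_iff₀ hl] at this
    linarith
  have hs1 : s < l := by
    have := Int.lt_floor_add_one (s₀ / l)
    rw [div_lt_iff₀ hl] at this
    linarith
  have hcl : 0 < Real.cosh (l / 2) := Real.cosh_pos _
  have hbd : ∀ x : ℝ, |x| ≤ l / 2 → C * Real.cosh x < Real.cosh (l / 2) := by
    intro x hx
    have h1 : Real.cosh x ≤ Real.cosh (l / 2) := by
      rw [Real.cosh_le_cosh, abs_of_pos (by linarith : 0 < l / 2)]; exact hx
    nlinarith [Real.cosh_pos x]
  refine ⟨-⌊s₀ / l⌋, ?_, ?_, ?_⟩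
  · rw [CLE_tr1]
    have e1 : Real.exp (((-⌊s₀ / l⌋ : ℤ) : ℝ) * l / 2) * d +
        Real.exp (-(((-⌊s₀ / l⌋ : ℤ) : ℝ) * l / 2)) * a = σ * (2 * (C * Real.cosh (s / 2))) := by
      have x1 : Real.exp (s / 2) = Real.exp (((-⌊s₀ / l⌋ : ℤ) : ℝ) * l / 2) * Real.exp (s₀ / 2) := by
        rw [← Real.exp_add]; congr 1; push_cast; rw [hs]; ring
      have x2 : Real.exp (-(s / 2)) =
          Real.exp (-(((-⌊s₀ / l⌋ : ℤ) : ℝ) * l / 2)) * Real.exp (-(s₀ / 2)) := by
        rw [← Real.exp_add]; congr 1; push_cast; rw [hs]; ring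
      have x3 := hcosh (s / 2)
      rw [x1, x2] at x3
      rw [hav, hdv]
      linear_combination (σ * C) * x3
    rw [e1, abs_mul, hσ, one_mul, abs_of_pos (by have := Real.cosh_pos (s/2); positivity)]
    have := hbd (s / 2) (by rw [abs_of_nonneg (by linarith)]; linarith)
    linarith
  · rw [CLE_tr2]
    have e1 : a * Real.exp (-(((-⌊s₀ / l⌋ : ℤ) : ℝ) * l) / 2) * Real.exp (l / 2) +
        d * Real.exp (-(-(((-⌊s₀ / l⌋ : ℤ) : ℝ) * l) / 2)) * Real.exp (-(l / 2)) =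
        σ * (2 * (C * Real.cosh ((l - s) / 2))) := by
      have x1 : Real.exp ((l - s) / 2) = Real.exp (-(s₀ / 2)) *
          Real.exp (-(((-⌊s₀ / l⌋ : ℤ) : ℝ) * l) / 2) * Real.exp (l / 2) := by
        rw [← Real.exp_add, ← Real.exp_add]; congr 1; push_cast; rw [hs]; ring
      have x2 : Real.exp (-((l - s) / 2)) = Real.exp (s₀ / 2) *
          Real.exp (-(-(((-⌊s₀ / l⌋ : ℤ) : ℝ) * l) / 2)) * Real.exp (-(l / 2)) := by
        rw [← Real.exp_add, ← Real.exp_add]; congr 1; push_cast; rw [hs]; ring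
      have x3 := hcosh ((l - s) / 2)
      rw [x1, x2] at x3
      rw [hav, hdv]
      linear_combination (σ * C) * x3
    rw [e1, abs_mul, hσ, one_mul, abs_of_pos (by have := Real.cosh_pos ((l - s)/2); positivity)]
    have := hbd ((l - s) / 2) (by rw [abs_of_nonneg (by linarith)]; linarith)
    linarith
  · rw [CLE_tr3]
    have hσ2 : σ ^ 2 = 1 := by rw [← sq_abs, hσ]; norm_num
    have e1 : (a ^ 2 * Real.exp (-(((-⌊s₀ / l⌋ : ℤ) : ℝ) * l) / 2) ^ 2 + b * c) *
          Real.exp (l / 2) +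
        (b * c + d ^ 2 * Real.exp (-(-(((-⌊s₀ / l⌋ : ℤ) : ℝ) * l) / 2)) ^ 2) *
          Real.exp (-(l / 2)) =
        2 * (C ^ 2 * Real.cosh (l / 2 - s)) - 2 * ((1 - C ^ 2) * Real.cosh (l / 2)) := by
      have x1 : Real.exp (l / 2 - s) = Real.exp (-(s₀ / 2)) ^ 2 *
          Real.exp (-(((-⌊s₀ / l⌋ : ℤ) : ℝ) * l) / 2) ^ 2 * Real.exp (l / 2) := by
        rw [sq, sq, ← Real.exp_add, ← Real.exp_add, ← Real.exp_add, ← Real.exp_add]
        congr 1; push_cast; rw [hs]; ring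
      have x2 : Real.exp (-(l / 2 - s)) = Real.exp (s₀ / 2) ^ 2 *
          Real.exp (-(-(((-⌊s₀ / l⌋ : ℤ) : ℝ) * l) / 2)) ^ 2 * Real.exp (-(l / 2)) := by
        rw [sq, sq, ← Real.exp_add, ← Real.exp_add, ← Real.exp_add, ← Real.exp_add]
        congr 1; push_cast; rw [hs]; ring
      have x3 := hcosh (l / 2 - s)
      have x4 := hcosh (l / 2)
      rw [x1, x2] at x3
      have hbc2 : b * c = C ^ 2 - 1 := by rw [hCC]; linarith
      rw [hbc2, hav, hdv]
      have ha2 : (σ * C * Real.exp (-(s₀ / 2))) ^ 2 = C ^ 2 * Real.exp (-(s₀ / 2)) ^ 2 := by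
        rw [mul_pow, mul_pow, hσ2, one_mul]
      have hd2 : (σ * C * Real.exp (s₀ / 2)) ^ 2 = C ^ 2 * Real.exp (s₀ / 2) ^ 2 := by
        rw [mul_pow, mul_pow, hσ2, one_mul]
      rw [ha2, hd2]
      linear_combination C ^ 2 * x3 + (C ^ 2 - 1) * x4
    rw [e1]
    have h1 : Real.cosh (l / 2 - s) ≤ Real.cosh (l / 2) := by
      rw [Real.cosh_le_cosh, abs_of_pos (by linarith : 0 < l / 2), abs_le]
      constructor <;> linarith
    have h2 := Real.cosh_pos (l / 2 - s)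
    have hC2 : 0 < C ^ 2 := by positivity
    have hC3 : C ^ 2 < 1 := by nlinarith
    rw [abs_lt]
    constructor
    · nlinarith
    · nlinarith

theorem CLE_trc_conj (F g : SL(2, ℝ)) : trc (F * g * F⁻¹) = trc g := by
  have e : ∀ x : SL(2, ℝ), trc x = x.1.trace := by
    intro x; rw [Matrix.trace_fin_two]; rfl
  rw [e, e, Matrix.SpecialLinearGroup.coe_mul, Matrix.SpecialLinearGroup.coe_mul,
    Matrix.trace_mul_comm, ← Matrix.mul_assoc, ← Matrix.SpecialLinearGroup.coe_mul, inv_mul_cancel]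
  simp

theorem CLE_neg (g : SL(2, ℝ)) : trc (-g) = - trc g := by
  simp [trc]; ring

theorem CLE_Dm_add (s t : ℝ) : Dm s * Dm t = Dm (s + t) := by
  apply Subtype.ext
  simp only [Dm, Matrix.SpecialLinearGroup.coe_mul]
  ext i j
  fin_cases i <;> fin_cases j <;>
    simp [Matrix.mul_apply, Fin.sum_univ_two, ← Real.exp_add] <;> ring_nf

theorem CLE_Dm_zero : Dm 0 = 1 := by
  apply Subtype.ext
  simp only [Dm, Matrix.SpecialLinearGroup.coe_one]
  ext i j
  fin_cases i <;> fin_cases j <;> simp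

theorem CLE_Dm_zpow (l : ℝ) (n : ℤ) : Dm l ^ n = Dm (n * l) := by
  induction n using Int.induction_on with
  | zero => simp [CLE_Dm_zero]
  | succ i ih => rw [_root_.zpow_add_one, ih, CLE_Dm_add]; congr 1; push_cast; ring
  | pred i ih =>
    rw [_root_.zpow_sub_one, ih]
    have : (Dm l)⁻¹ = Dm (-l) := by
      rw [inv_eq_iff_mul_eq_one, CLE_Dm_add]; simp [CLE_Dm_zero]
    rw [this, CLE_Dm_add]; congr 1; push_cast; ring

theorem CLE_Dm_inv (t : ℝ) : (Dm t)⁻¹ = Dm (-t) := by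
  rw [inv_eq_iff_mul_eq_one, CLE_Dm_add]; simp [CLE_Dm_zero]

theorem CLE_pmul {a b c d : SL(2, ℝ)} (h : PEq a b) (h' : PEq c d) : PEq (a * c) (b * d) := by
  unfold PEq at *
  rcases h with rfl | rfl <;> rcases h' with rfl | rfl
  · left; rfl
  · right; rw [mul_neg]
  · right; rw [neg_mul]
  · left; rw [neg_mul_neg]

theorem CLE_pinv {a b : SL(2, ℝ)} (h : PEq a b) : PEq a⁻¹ b⁻¹ := by
  unfold PEq at *
  rcases h with rfl | rfl
  · left; rfl
  · right
    rw [inv_eq_iff_mul_eq_one, neg_mul_neg, mul_inv_cancel]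

theorem CLE_ptrc {a b : SL(2, ℝ)} (h : PEq a b) : |trc a| = |trc b| := by
  rcases h with rfl | rfl
  · rfl
  · rw [CLE_neg, abs_neg]

theorem CLE_ppow {a b : SL(2, ℝ)} (h : PEq a b) (n : ℤ) : PEq (a ^ n) (b ^ n) := by
  induction n using Int.induction_on with
  | zero => left; simp
  | succ i ih => rw [_root_.zpow_add_one, _root_.zpow_add_one]; exact CLE_pmul ih h
  | pred i ih => rw [_root_.zpow_sub_one, _root_.zpow_sub_one]; exact CLE_pmul ih (CLE_pinv h)

theorem CLE_conj_zpow (F g : SL(2, ℝ)) (n : ℤ) : (F * g * F⁻¹) ^ n = F * g ^ n * F⁻¹ := by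
  exact conj_zpow

/-- CLE: splitting a closed geodesic at a self-intersection -/
theorem CLE (h1 : BD1_stmt) (h2 : BD2_stmt) (h6 : BD6_stmt) (h8 : BD8_stmt) : CLE_stmt := by
  intro γ h p hγ hlink _
  obtain ⟨F, hF⟩ := h6.1 p hγ.1
  obtain ⟨hpos, hlen⟩ := h8.2.1 γ F p hγ hF
  have hPγ : PEq γ (F * Dm (len γ) * F⁻¹) := by
    rw [← hpos]
    unfold pos PEq
    split_ifs
    · left; rfl
    · right; rw [neg_neg]
  have hk : h = F * (F⁻¹ * h * F) * F⁻¹ := by group
  have hlk : Linked bInf bZero ((F⁻¹ * h * F) • bInf) ((F⁻¹ * h * F) • bZero) := by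
    have e1 : h • p.1 = F • ((F⁻¹ * h * F) • bInf) := by
      rw [← hF.1, smul_smul, smul_smul]; congr 1; group
    have e2 : h • p.2 = F • ((F⁻¹ * h * F) • bZero) := by
      rw [← hF.2, smul_smul, smul_smul]; congr 1; group
    rw [e1, e2, ← hF.1, ← hF.2] at hlink
    unfold Linked at hlink ⊢
    rwa [h2, h2, h2, h2] at hlink
  obtain ⟨n, t1, t2, t3⟩ := CLE_core (F⁻¹ * h * F) (len γ) hlen (CLE_linked h1 _ hlk)
  have htγ : |trc γ| = 2 * Real.cosh (len γ / 2) := by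
    rw [CLE_ptrc hPγ, CLE_trc_conj]
    have : trc (Dm (len γ)) = 2 * Real.cosh (len γ / 2) := by
      simp [trc, Dm]
      rw [Real.cosh_eq]; ring
    rw [this, abs_of_pos (by have := Real.cosh_pos (len γ / 2); positivity)]
  set k := F⁻¹ * h * F with hkdef
  have hPg : PEq (γ ^ n * h⁻¹) (F * (Dm (n * len γ) * k⁻¹) * F⁻¹) := by
    have e : F * (Dm (n * len γ) * k⁻¹) * F⁻¹ = F * Dm (n * len γ) * F⁻¹ * h⁻¹ := by
      rw [hkdef]; group
    rw [e]
    refine CLE_pmul ?_ (Or.inl rfl)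
    have := CLE_ppow hPγ n
    rwa [CLE_conj_zpow, CLE_Dm_zpow] at this
  have hPgi : PEq (γ ^ n * h⁻¹)⁻¹ (F * (k * Dm (-(n * len γ))) * F⁻¹) := by
    have := CLE_pinv hPg
    have e : (F * (Dm (n * len γ) * k⁻¹) * F⁻¹)⁻¹ = F * (k * Dm (-(n * len γ))) * F⁻¹ := by
      rw [← CLE_Dm_inv]; group
    rwa [e] at this
  refine ⟨n, ?_, ?_, ?_⟩
  · rw [htγ, CLE_ptrc hPg, CLE_trc_conj]; exact t1
  · have hP2 : PEq ((γ ^ n * h⁻¹)⁻¹ * γ) (F * (k * Dm (-(n * len γ)) * Dm (len γ)) * F⁻¹) := by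
      have := CLE_pmul hPgi hPγ
      have e : F * (k * Dm (-(n * len γ))) * F⁻¹ * (F * Dm (len γ) * F⁻¹) =
          F * (k * Dm (-(n * len γ)) * Dm (len γ)) * F⁻¹ := by group
      rwa [e] at this
    rw [htγ, CLE_ptrc hP2, CLE_trc_conj]; exact t2
  · have hP3 : PEq ((γ ^ n * h⁻¹)⁻¹ * (γ ^ n * h⁻¹)⁻¹ * γ)
        (F * (k * Dm (-(n * len γ)) * (k * Dm (-(n * len γ))) * Dm (len γ)) * F⁻¹) := by
      have := CLE_pmul (CLE_pmul hPgi hPgi) hPγ
      have e : F * (k * Dm (-(n * len γ))) * F⁻¹ * (F * (k * Dm (-(n * len γ))) * F⁻¹) *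
          (F * Dm (len γ) * F⁻¹) =
          F * (k * Dm (-(n * len γ)) * (k * Dm (-(n * len γ))) * Dm (len γ)) * F⁻¹ := by group
      rwa [e] at this
    rw [htγ, CLE_ptrc hP3, CLE_trc_conj]; exact t3

end

end AdSBend
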