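import Pool.Agent.helper69.AD.GS5

open scoped MatrixGroups LinearAlgebra.Projectivization
open Matrix UpperHalfPlane
open Pool.Agent.helper73.AD (PS Arc Word sg AData Family PreFamily Cone bs)

namespace AdSBend

noncomputable section

open LeafSystem

theorem FE2_linked (h2 : BD2_stmt) (g : SL(2, ℝ)) (x y x' y' : Bd) :
    Linked (g • x) (g • y) (g • x') (g • y') ↔ Linked x y x' y' := by
  unfold Linked
  rw [h2, h2, h2, h2]

theorem FE2_simple {Γ : Subgroup SL(2, ℝ)} (S : LeafSystem Γ) (p : Bd × Bd) (hp : p ∈ S.L) :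
    IsSimpleClosedGeodesic Γ p.1 p.2 :=
  ⟨S.closed p hp, fun γ hγ => S.unlinked p hp (γ • p.1, γ • p.2) (S.inv γ hγ p hp)⟩

/-- the classes of the leaves of a word are periodic -/
theorem FE2_per {Γ : Subgroup SL(2, ℝ)} {S : LeafSystem Γ} {J : Type} (D : RefData S J)
    (l : Bd × Bd) (w : Word J) (W : WordOf D l w) (hg : gen Γ l ∈ Γ) (i : ℤ) :
    ∃ i' : Fin (w.n + 1), w.j i' = D.cls (W.A i) := by
  have h1 : ∀ i : ℤ, D.cls (W.A (i + (w.n + 1 : ℤ))) = D.cls (W.A i) := by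
    intro i
    have := W.perA i
    rw [← add_assoc, this]
    exact D.cls_ga _ hg _ (W.mem i).1
  have h2 : ∀ (k : ℕ) (i : ℤ), D.cls (W.A (i + k * (w.n + 1 : ℤ))) = D.cls (W.A i) := by
    intro k
    induction k with
    | zero => intro i; simp
    | succ k ih =>
      intro i
      have e : i + ((k + 1 : ℕ) : ℤ) * (w.n + 1 : ℤ) = (i + k * (w.n + 1 : ℤ)) + (w.n + 1 : ℤ) := by
        push_cast; ring
      rw [e, h1, ih]
  have h3 : ∀ (k : ℤ) (i : ℤ), D.cls (W.A (i + k * (w.n + 1 : ℤ))) = D.cls (W.A i) := by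
    intro k i
    rcases Int.eq_nat_or_neg k with ⟨m, rfl | rfl⟩
    · exact h2 m i
    · have := h2 m (i + (-(m : ℤ)) * (w.n + 1 : ℤ))
      have e : i + -(m : ℤ) * ((w.n : ℤ) + 1) + (m : ℤ) * ((w.n : ℤ) + 1) = i := by ring
      rw [e] at this
      exact this.symm
  have hpos : (0 : ℤ) < (w.n : ℤ) + 1 := by positivity
  have hm0 := Int.emod_nonneg i hpos.ne'
  have hm1 := Int.emod_lt_of_pos i hpos
  refine ⟨⟨(i % ((w.n : ℤ) + 1)).toNat, by omega⟩, ?_⟩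
  rw [W.cj]
  have e1 : (((i % ((w.n : ℤ) + 1)).toNat : ℕ) : ℤ) = i % ((w.n : ℤ) + 1) := Int.toNat_of_nonneg hm0
  rw [e1]
  have e2 : i = i % ((w.n : ℤ) + 1) + (i / ((w.n : ℤ) + 1)) * ((w.n : ℤ) + 1) := by
    have := Int.emod_add_mul_ediv i ((w.n : ℤ) + 1)
    linarith
  conv_rhs => rw [e2]
  rw [h3]

/-- FE2: transverse pants decompositions and their words exist, with the exchanged words -/
theorem FE2 (hBD2 : BD2_stmt) (hBD12 : BD12_stmt) (hGM1 : GM1_stmt) (hCH2 : CH2_stmt)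
    (hBR2 : BR2_stmt) (hCLM : CLM_stmt) (hFB3 : FB3_stmt) (hFC2 : FC2_stmt) : FE2_stmt := by
  intro Γ hΓ lm lp hfill
  obtain ⟨Sm, hSm⟩ := hBR2 Γ lm
  obtain ⟨Sp, hSp⟩ := hBR2 Γ lp
  obtain ⟨S, hS, hSP, hSne⟩ := hCLM Γ hΓ Sm
  obtain ⟨S', hS', hSP', hSne'⟩ := hCLM Γ hΓ Sp
  obtain ⟨m, ⟨D⟩⟩ := hFB3 Γ hΓ S hSP hSne
  obtain ⟨n, ⟨D'⟩⟩ := hFB3 Γ hΓ S' hSP' hSne'
  have hm : ∀ x y, lm.w x y ≠ 0 → (x, y) ∈ S.L := fun x y h => hS ((hSm (x, y)).mpr h)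
  have hp : ∀ x y, lp.w x y ≠ 0 → (x, y) ∈ S'.L := fun x y h => hS' ((hSp (x, y)).mpr h)
  have cr : ∀ p ∈ S.L, ∃ q : Bd × Bd, lp.w q.1 q.2 ≠ 0 ∧ Linked p.1 p.2 q.1 q.2 := by
    intro p hpS
    obtain ⟨x', y', h | h, hl⟩ := hfill p.1 p.2 (FE2_simple S p hpS)
    · exact absurd hl (S.unlinked p hpS (x', y') (hm _ _ h))
    · exact ⟨(x', y'), h, hl⟩
  have cr' : ∀ q ∈ S'.L, ∃ p : Bd × Bd, lm.w p.1 p.2 ≠ 0 ∧ Linked q.1 q.2 p.1 p.2 := by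
    intro q hqS
    obtain ⟨x', y', h | h, hl⟩ := hfill q.1 q.2 (FE2_simple S' q hqS)
    · exact ⟨(x', y'), h, hl⟩
    · exact absurd hl (S'.unlinked q hqS (x', y') (hp _ _ h))
  have cross : ∀ p ∈ S.L, ∃ q ∈ S'.L, Linked p.1 p.2 q.1 q.2 := by
    intro p hpS
    obtain ⟨q, h, hl⟩ := cr p hpS
    exact ⟨q, hp _ _ h, hl⟩
  have cross' : ∀ q ∈ S'.L, ∃ p ∈ S.L, Linked q.1 q.2 p.1 p.2 := by
    intro q hqS
    obtain ⟨p, h, hl⟩ := cr' q hqS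
    exact ⟨p, hm _ _ h, hl⟩
  have hw : ∀ k, ∃ w : Word (Fin m), Nonempty (WordOf D (D'.P k) w) := fun k =>
    hFC2 Γ hΓ S hSP (Fin m) D (D'.P k) (FE2_simple S' _ (D'.memP k)) (cross' _ (D'.memP k))
  have hw' : ∀ j, ∃ w : Word (Fin n), Nonempty (WordOf D' (D.P j) w) := fun j =>
    hFC2 Γ hΓ S' hSP' (Fin n) D' (D.P j) (FE2_simple S _ (D.memP j)) (cross _ (D.memP j))
  choose w W using hw
  choose w' W' using hw'
  let X : Setup Γ (Fin m) (Fin n) :=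
    { S := S, S' := S', pants := hSP, pants' := hSP', D := D, D' := D', cross := cross,
      cross' := cross', w := w, W := fun k => (W k).some }
  let Y : Setup Γ (Fin n) (Fin m) :=
    { S := S', S' := S, pants := hSP', pants' := hSP, D := D', D' := D, cross := cross',
      cross' := cross, w := w', W := fun k => (W' k).some }
  refine ⟨m, n, X, Y, hSne, hSne', hm, hp, ?_⟩
  intro j
  show ∃ k, 0 < lp.w (D'.P k).1 (D'.P k).2 ∧ ∃ i, (w k).j i = j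
  obtain ⟨q, hq, hl⟩ := cr (D.P j) (D.memP j)
  have hqS : q ∈ S'.L := hp _ _ hq
  refine ⟨D'.cls q, ?_⟩
  obtain ⟨γ, hγ, hqe⟩ := D'.cls_inj (D'.P (D'.cls q)) (D'.memP _) q hqS (D'.clsP _)
  have hγ' : γ⁻¹ ∈ Γ := Γ.inv_mem hγ
  generalize D'.cls q = k at hqe ⊢
  -- the weight
  have hwt : lp.w (D'.P k).1 (D'.P k).2 = lp.w q.1 q.2 := by
    rcases hqe with h | h
    · rw [h]
      exact (lp.invariant γ hγ _ _).symm
    · rw [h]
      show _ = lp.w (γ • (D'.P k).2) (γ • (D'.P k).1)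
      rw [lp.invariant γ hγ]
      exact lp.symm _ _
  refine ⟨?_, ?_⟩
  · rw [hwt]
    exact lt_of_le_of_ne (lp.nonneg _ _) (Ne.symm hq)
  -- the crossing
  have hlk : Linked (D'.P k).1 (D'.P k).2 (ga γ⁻¹ (D.P j)).1 (ga γ⁻¹ (D.P j)).2 := by
    have h1 : Linked (γ⁻¹ • (D.P j).1) (γ⁻¹ • (D.P j).2) (γ⁻¹ • q.1) (γ⁻¹ • q.2) :=
      (FE2_linked hBD2 γ⁻¹ _ _ _ _).mpr hl
    have hsym := hBD12.2.2.2.2.2.2.2.2.2.1
    have hsw := hBD12.2.2.2.2.2.2.2.2.2.2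
    rcases hqe with h | h
    · rw [h] at h1
      simp only [inv_smul_smul] at h1
      exact (hsym _ _ _ _).mp h1
    · rw [h] at h1
      simp only [inv_smul_smul] at h1
      have h2 := (hsym _ _ _ _).mp h1
      exact (hsw _ _ _ _).mp h2
  have hmem : ga γ⁻¹ (D.P j) ∈ S.L := S.inv γ⁻¹ hγ' _ (D.memP j)
  have hgl : gen Γ (D'.P k) ∈ Γ := (hGM1 Γ hΓ (D'.P k) (S'.closed _ (D'.memP k))).1
  have hfin : ∀ p ∈ S.L, D.cls p = j → Behind p (D'.P k).2 → Behind (sw p) (D'.P k).1 →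
      ∃ i, (w k).j i = j := by
    intro p hpS hcl hb1 hb2
    obtain ⟨i, hi⟩ := (W k).some.all p hpS hb1 hb2
    obtain ⟨i', hi'⟩ := FE2_per D (D'.P k) (w k) (W k).some hgl i
    refine ⟨i', ?_⟩
    rw [hi', ← hi, hcl]
  rcases (hCH2 _ _).mp hlk with ⟨hb1, hb2⟩ | ⟨hb1, hb2⟩
  · exact hfin _ hmem (by rw [D.cls_ga _ hγ' _ (D.memP j), D.clsP]) hb1 hb2
  · refine hfin (sw (ga γ⁻¹ (D.P j))) (S.swap _ hmem) ?_ hb1 hb2
    rw [D.cls_sw _ hmem, D.cls_ga _ hγ' _ (D.memP j), D.clsP]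

end

end AdSBend
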