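import Pool.Agent.helper69.AD.GS5

open scoped MatrixGroups LinearAlgebra.Projectivization
open Matrix UpperHalfPlane

namespace AdSBend

noncomputable section

open LeafSystem

/-- FE4: coordinates of the left and the right representation: future bending -/
theorem FE4 (hBR4 : BR4_stmt) (hBR5 : BR5_stmt) (hPM2 : PM2_stmt) (hPN5 : PN5_stmt) :
    FE4_stmt := by
  intro Γ hΓ J K _ _ _ _ X hne M lp hlp hM r r' z₀ A hr hr' hX
  have hco : ∀ p ∈ X.S'.L, ∃ q, X.S'.CoPl p q := by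
    intro p hp
    obtain ⟨q, s, h⟩ := X.pants'.hex p hp
    exact ⟨q, h.1⟩
  obtain ⟨B, hB⟩ := hBR4 Γ hΓ X.S' hco hne M lp r hlp hr hM
  have hT := hX.twist (fun k => 2 * lp.w (X.D'.P k).1 (X.D'.P k).2)
  -- the jumps agree
  have hw : ∀ p ∈ X.S'.L, lp.w (X.D'.P (X.D'.cls p)).1 (X.D'.P (X.D'.cls p)).2 = lp.w p.1 p.2 := by
    intro p hp
    obtain ⟨γ, hγ, h⟩ := X.D'.cls_inj (X.D'.P (X.D'.cls p)) (X.D'.memP _) p hp (X.D'.clsP _)
    generalize X.D'.cls p = j at h ⊢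
    rcases h with h | h
    · rw [h]
      exact (lp.invariant γ hγ _ _).symm
    · rw [h]
      show _ = lp.w (γ • (X.D'.P j).2) (γ • (X.D'.P j).1)
      rw [lp.invariant γ hγ]
      exact lp.symm _ _
  have hB' : X.S'.IsPlaqueMap (fun p => twS (r (gen Γ p))
      (-(fun k => 2 * lp.w (X.D'.P k).1 (X.D'.P k).2) (X.D'.cls p))) B := by
    refine ⟨hB.1.1, ?_⟩
    intro z z' p hz hz' hac
    have h1 := hB.1.2 z z' p hz hz' hac
    rw [h1]
    simp only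
    rw [hw p hac.1]
  refine ⟨B z₀, ?_⟩
  intro γ hγ
  have hoff : X.S'.OffPt (γ • z₀) := (hPN5 Γ X.S').2.2.1 γ hγ z₀ hX.off
  have h2 := hPM2 Γ hΓ X.S' _ _ _ hT.1 hB' z₀ (γ • z₀) hX.off hoff
  rw [hT.2, inv_one, one_mul] at h2
  have h3 := hBR5 Γ hΓ X.S' hco hne _ _ _ r r' B hr hr' hB γ hγ z₀ hX.off
  rw [h2]
  have e : B z₀ * ((B z₀)⁻¹ * B (γ • z₀) * r γ) * (B z₀)⁻¹ = B (γ • z₀) * r γ * (B z₀)⁻¹ := by
    group
  rw [e]
  exact h3

end

end AdSBend
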